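import Mathlib
import Pool.Agent.H594.ZP.Fam

/-!
# Zilber's conjecture for families of subvarieties of tori twisted by numbers of small height

Let `A_1, …, A_r ⊂ ℤ^n` be finite nonempty sets and `c_jβ`, `β ∈ A_j`, nonzero polynomials with
algebraic coefficients in one variable. For a number `t` and nonzero numbers `w_jβ` let `X_{t,w}` be
the set of the points of the torus `(ℂ^×)^n` with `∑_β w_jβ c_jβ(t) x^β = 0`, `j = 1, …, r`.
The classes of the `w` modulo scaling of the equations are the points of a torus, and so the sets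
`X_{t,w}` are a family with many parameters (for fixed `t`: all systems with the supports `A_j` and
nonzero coefficients). We fix different algebraic numbers `α_1, …, α_M`, and suppose that for all
choices of different `a_j, b_j ∈ A_j` any `k + 1` of the `M` vectors
`(ord_{α_l} c_{j a_j} - ord_{α_l} c_{j b_j})_j` span `ℚ^r`. (For instance, this is satisfied with
`k = r - 1` for almost all systems of orders.) Let `N = k ∏_j |A_j| (|A_j| - 1) + 1`.

**Theorem.** There is a `κ > 0`, which depends only on the supports, the orders of the `c_jβ` at the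
`α_l` and `d`, such that for all number fields `K` and all finite sets `Γ` of algebraic numbers, and for
all but finitely many numbers `t` of degree at most `d` over `K` (if `N + 2 d ≤ M`; for `t` which are
algebraic integers `N + 2 d ≤ M + 1` is sufficient), the following holds for ALL systems `w` of
numbers and ALL points `η` of the torus such that `w_jβ = u_jβ s_jβ` and `η_i = v_i q_i` with units
`u_jβ`, `v_i` of the integral closure of `ℤ[Γ]` in `ℂ` and nonzero algebraic numbers `s_jβ`, `q_i`
(of any degree) for which the sum of the heights is at most `κ h(t)`.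

1. `X_{t,w}` has no atypical intersection with the cosets `η H` of the algebraic subgroups `H`:
   every irreducible subset of `X_{t,w} ∩ η H` has dimension at most `dim H - r`.
2. `X_{t,w}` does not meet `η H` if `dim H < r`. So no point of `X_{t,w}` has height distance at most
   `κ h(t) - ∑ h(s_jβ)` from the union of all algebraic subgroups of dimension less than `r`, or from
   the union of their cosets by units (the points of the tubes of the conjectures which combine
   Zilber's and Bogomolov's; here the radius grows with `t`).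
3. No subset `V` of dimension `n - r` of `X_{t,w}` has an atypical subvariety; hence the assertion of
   the problem holds for the irreducible components of `X_{t,w}` of dimension `n - r`.

Starting files of the library: `MP_c95b3b_ag.TropicallyGenericFamilies` and `AlgebraicParameters` have
rational `α_l`, numbers `t` of degree at most `d` over `ℚ`, and units as `w_jβ` and `η_i`;
`FinitelyGeneratedFields` has `t` in a fixed field. The new point are the multipliers and the cosets by
points of positive height, which may grow with `t` (so that, for fixed `t`, all systems of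
coefficients of height at most `κ h(t)` are admitted); further points are the degree over `K` together
with algebraic `α_l`, and the bound for algebraic integers.

Proof: by Wirsing's theorem (a theorem of the library) there are, for at least `N` of the `l`, places
of `K(t)` outside of a finite set which depends only on `Γ` and the family, which give a positive
proportion of the height of `t - α_l`, and hence (in every extension) places at which `s` and `q` are
small in comparison with `t - α_l`. There the tropicalization of the equations is near to a multiple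
of the tropicalization of the family at `α_l`, and sufficiently many of these are in general
position, so that none of the linear spaces of dimension less than `r` meets them all.
-/

set_option autoImplicit false

namespace Pool.Agent.Results.MP_b7926e_nt.SmallTwistsOfFamilies

open Pool.Agent.H594.ML
open Pool.Agent.H594.BD (degLe_alg)
open Pool.Agent.Helper259.AbsHt (Qbar)
open Pool.Agent.Y215.SK (h1)
open Pool.Agent.Results.MP_b7926e_nt.NoAtypical (coset idealOf dim NoAtypicalSubvariety)

variable {n r : ℕ}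

/-- The absolute logarithmic height of an algebraic number `z`. (The image of the embedding `sg` of
an algebraic closure of `ℚ` consists of the algebraic numbers, and `h1 a` is the absolute
logarithmic height of `a`; for transcendental `z` the value has no meaning. See part (0) of the
theorem.) -/
noncomputable def ht (z : ℂ) : ℝ := h1 (Function.invFun sg z)

/-- the algebraic numbers of degree at most `d` over `K` -/
def DegLe (K : IntermediateField ℚ ℂ) (d : ℕ) : Set ℂ :=
  {z | ∃ P : Polynomial ℂ, P ≠ 0 ∧ P.natDegree ≤ d ∧ (∀ i, P.coeff i ∈ K) ∧ P.eval z = 0}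

/-- The set `X_{t,w}`: the points of the torus at which all the Laurent polynomials
`∑_β w_jβ c_jβ(t) x^β` vanish. -/
def member (A : Fin r → Finset (Fin n → ℤ)) (c : Fin r → (Fin n → ℤ) → Polynomial ℂ) (t : ℂ)
    (w : Fin r → (Fin n → ℤ) → ℂ) : Set (Fin n → ℂ) :=
  {x | (∀ i, x i ≠ 0) ∧ ∀ j, ∑ β ∈ A j, w j β * (c j β).eval t * ∏ i, x i ^ β i = 0}

/-- For all choices of different exponents `a_j, b_j ∈ A_j` any `k + 1` of the `M` vectors
`(e_{l j a_j} - e_{l j b_j})_j` span `ℚ^r`. -/
def Spanning {M : ℕ} (A : Fin r → Finset (Fin n → ℤ)) (e : Fin M → Fin r → (Fin n → ℤ) → ℤ)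
    (k : ℕ) : Prop :=
  ∀ a b : Fin r → Fin n → ℤ, (∀ j, a j ∈ A j ∧ b j ∈ A j ∧ a j ≠ b j) →
    ∀ S : Finset (Fin M), S.card = k + 1 → Submodule.span ℚ
      ((fun l (j : Fin r) => ((e l j (a j) : ℚ) - e l j (b j))) '' (S : Set (Fin M))) = ⊤

/-- The coefficients `c_jβ` are nonzero polynomials with algebraic coefficients which have the order
`e_{l j β}` at `α_l`. -/
def HasOrders {M : ℕ} (A : Fin r → Finset (Fin n → ℤ)) (e : Fin M → Fin r → (Fin n → ℤ) → ℤ)
    (α : Fin M → ℂ) (c : Fin r → (Fin n → ℤ) → Polynomial ℂ) : Prop :=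
  ∀ j, ∀ β ∈ A j, c j β ≠ 0 ∧ (∀ i, IsAlgebraic ℚ ((c j β).coeff i)) ∧
    ∀ l, ((c j β).rootMultiplicity (α l) : ℤ) = e l j β

/-- `z` is a unit of the integral closure in `ℂ` of the ring generated by `Γ`. -/
def IsUnitOver (Γ : Set ℂ) (z : ℂ) : Prop :=
  z ≠ 0 ∧ IsIntegral (Algebra.adjoin ℤ Γ) z ∧ IsIntegral (Algebra.adjoin ℤ Γ) z⁻¹

/-- `z = u s` with a unit `u` over `Γ` and an algebraic number `s ≠ 0` -/
def UnitTimes (Γ : Set ℂ) (s z : ℂ) : Prop :=
  IsAlgebraic ℚ s ∧ s ≠ 0 ∧ ∃ u, IsUnitOver Γ u ∧ z = u * s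

/-- The `w_jβ` and the coordinates of `η` are products of units over `Γ` and of algebraic numbers
the sum of the heights of which is at most `H`. -/
def Small (Γ : Set ℂ) (A : Fin r → Finset (Fin n → ℤ)) (H : ℝ) (w : Fin r → (Fin n → ℤ) → ℂ)
    (η : Fin n → ℂ) : Prop :=
  ∃ (s : Fin r → (Fin n → ℤ) → ℂ) (q : Fin n → ℂ),
    (∀ j, ∀ β ∈ A j, UnitTimes Γ (s j β) (w j β)) ∧ (∀ i, UnitTimes Γ (q i) (η i)) ∧
      ∑ j, ∑ β ∈ A j, ht (s j β) + ∑ i, ht (q i) ≤ H

/-- Every irreducible subset `B` of `X ∩ η H`, for all algebraic subgroups `H`, has dimension at most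
`dim H - r`. Here `η H = {y | y ^ a = η ^ a for all a in Λ}` and `dim H = n - rank Λ`. -/
def NoAtypicalAt (r : ℕ) (η : Fin n → ℂ) (X : Set (Fin n → ℂ)) : Prop :=
  ∀ (Λ : Submodule ℤ (Fin n → ℤ)) (B : Set (Fin n → ℂ)), B ⊆ X → B ⊆ coset Λ η →
    (idealOf B).IsPrime →
      dim B + (r : Cardinal) + (Module.finrank ℤ Λ : Cardinal) ≤ (n : Cardinal)

/-- The conclusion for the parameter `t`. -/
def Good (Γ : Set ℂ) (A : Fin r → Finset (Fin n → ℤ)) (c : Fin r → (Fin n → ℤ) → Polynomial ℂ)
    (t : ℂ) (H : ℝ) : Prop :=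
  ∀ (w : Fin r → (Fin n → ℤ) → ℂ) (η : Fin n → ℂ), Small Γ A H w η →
    NoAtypicalAt r η (member A c t w) ∧
    (∀ Λ : Submodule ℤ (Fin n → ℤ), n < r + Module.finrank ℤ Λ →
      Disjoint (member A c t w) (coset Λ η)) ∧
    ∀ V : Set (Fin n → ℂ), V ⊆ member A c t w → dim V + (r : Cardinal) = (n : Cardinal) →
      NoAtypicalSubvariety V

theorem ht_sg (y : Qbar) : ht (sg y) = h1 y := by
  unfold ht
  rw [Function.leftInverse_invFun sg_inj y]

theorem ht_nonneg (z : ℂ) : 0 ≤ ht z := Pool.Agent.Y215.SK.h1_nonneg _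

theorem ht_one : ht 1 = 0 := by
  rw [← map_one sg, ht_sg]
  exact Pool.Agent.Y215.SK.h1_one

/-- the height in terms of Mathlib's height of the elements of number fields -/
theorem ht_field (L : Type) [Field L] [NumberField L] (φ : L →+* ℂ) (y : L) :
    ht (φ y) = Height.logHeight₁ y / Module.finrank ℚ L := by
  have halg : ∀ x : L, IsAlgebraic ℚ (φ x) := by
    intro x
    have h1 : IsAlgebraic ℚ x := Algebra.IsAlgebraic.isAlgebraic x
    exact h1.algHom φ.toRatAlgHom
  choose f hf using fun x => exists_sg (halg x)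
  let ψ : L →+* Qbar :=
    { toFun := f
      map_one' := sg_inj (by rw [hf, map_one, map_one])
      map_mul' := fun x y => sg_inj (by rw [hf, map_mul, map_mul, hf, hf])
      map_zero' := sg_inj (by rw [hf, map_zero, map_zero])
      map_add' := fun x y => sg_inj (by rw [hf, map_add, map_add, hf, hf]) }
  have h1 : φ y = sg (ψ y) := (hf y).symm
  rw [h1, ht_sg, Pool.Agent.Y215.SK.h1_eq L ψ y]

/-- A root of unity is a unit over every set. -/
theorem isUnitOver_of_pow (Γ : Set ℂ) {z : ℂ} {q : ℕ} (hq : 0 < q) (h : z ^ q = 1) :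
    IsUnitOver Γ z := by
  have hz : z ≠ 0 := by
    rintro rfl
    rw [zero_pow hq.ne'] at h
    exact zero_ne_one h
  have hint : ∀ w : ℂ, w ^ q = 1 → IsIntegral (Algebra.adjoin ℤ Γ) w := fun w hw =>
    IsIntegral.of_pow hq (by rw [hw]; exact isIntegral_one)
  exact ⟨hz, hint z h, hint _ (by rw [inv_pow, h, inv_one])⟩

theorem idealOf_point (x : Fin n → ℂ) : (idealOf ({x} : Set (Fin n → ℂ))).IsPrime := by
  have h : idealOf ({x} : Set (Fin n → ℂ)) =
      RingHom.ker (MvPolynomial.eval x : MvPolynomial (Fin n) ℂ →+* ℂ) := by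
    unfold idealOf
    simp
  rw [h]
  exact RingHom.ker_isPrime _

/-- points and torsion cosets -/
theorem noAtypical_of (Γ : Set ℂ) (A : Fin r → Finset (Fin n → ℤ))
    (c : Fin r → (Fin n → ℤ) → Polynomial ℂ) (t : ℂ) (H : ℝ)
    (h : ∀ (w : Fin r → (Fin n → ℤ) → ℂ) (η : Fin n → ℂ), Small Γ A H w η →
      NoAtypicalAt r η (member A c t w)) : Good Γ A c t H := by
  intro w η hw
  refine ⟨h w η hw, fun Λ hΛ => ?_, fun V hV hdim Λ ζ hζ B hBV hBT hB => ?_⟩
  · rw [Set.disjoint_left]
    intro x hx1 hx2
    have h1 := h w η hw Λ {x} (Set.singleton_subset_iff.2 hx1) (Set.singleton_subset_iff.2 hx2)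
      (idealOf_point x)
    have h2 : ((r + Module.finrank ℤ Λ : ℕ) : Cardinal) ≤ (n : Cardinal) := by
      refine le_trans ?_ h1
      push_cast
      rw [add_assoc]
      exact le_add_self
    have h3 : r + Module.finrank ℤ Λ ≤ n := by exact_mod_cast h2
    omega
  obtain ⟨s, q, hs, hq, hsum⟩ := hw
  obtain ⟨m, hm, hζm⟩ := hζ
  have h1 := h w ζ ⟨s, fun _ => 1, hs, fun i => ⟨isAlgebraic_one, one_ne_zero, ζ i,
    isUnitOver_of_pow Γ hm (hζm i), (mul_one _).symm⟩, by
      simp only [ht_one, Finset.sum_const_zero, add_zero]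
      have h2 : 0 ≤ ∑ i, ht (q i) := Finset.sum_nonneg fun i _ => ht_nonneg _
      linarith⟩ Λ B (hBV.trans hV) hBT hB
  have hB' : dim B < Cardinal.aleph0 := by
    refine lt_of_le_of_lt ?_ (Cardinal.natCast_lt_aleph0 (n := n))
    refine le_trans ?_ h1
    rw [add_assoc]
    exact le_self_add
  have hV' : dim V < Cardinal.aleph0 := by
    refine lt_of_le_of_lt ?_ (Cardinal.natCast_lt_aleph0 (n := n))
    rw [← hdim]
    exact le_self_add
  obtain ⟨a, ha⟩ := Cardinal.lt_aleph0.1 hB'
  obtain ⟨b, hb⟩ := Cardinal.lt_aleph0.1 hV'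
  rw [ha] at h1 ⊢
  rw [hb] at hdim ⊢
  have h3 : a + r + Module.finrank ℤ Λ ≤ n := by exact_mod_cast h1
  have h4 : b + r = n := by exact_mod_cast hdim
  have h5 : a + Module.finrank ℤ Λ ≤ b := by omega
  exact_mod_cast h5

/-- **Families of subvarieties of tori twisted by numbers of small height.** -/
theorem result {M k d : ℕ} (hd : 1 ≤ d) (A : Fin r → Finset (Fin n → ℤ))
    (hA : ∀ j, (A j).Nonempty) (e : Fin M → Fin r → (Fin n → ℤ) → ℤ) (he : Spanning A e k) (N : ℕ)
    (hN : N = k * ∏ j, ((A j).card * ((A j).card - 1)) + 1) :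
    (∀ (L : Type) [Field L] [NumberField L] (φ : L →+* ℂ) (y : L),
      ht (φ y) = Height.logHeight₁ y / Module.finrank ℚ L) ∧
    ∃ κ : ℝ, 0 < κ ∧ ∀ K : IntermediateField ℚ ℂ, FiniteDimensional ℚ K → ∀ α : Fin M → ℂ,
      Function.Injective α → (∀ l, IsAlgebraic ℚ (α l)) →
      ∀ c : Fin r → (Fin n → ℤ) → Polynomial ℂ, HasOrders A e α c →
      ∀ Γ : Set ℂ, Γ.Finite → (∀ z ∈ Γ, IsAlgebraic ℚ z) →
      {t : ℂ | t ∈ DegLe K d ∧ (N + 2 * d ≤ M ∨ (IsIntegral ℤ t ∧ N + 2 * d ≤ M + 1)) ∧
        ¬ Good Γ A c t (κ * ht t)}.Finite := by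
  refine ⟨ht_field, ?_⟩
  obtain ⟨κ, hκ, hmain⟩ := Pool.Agent.H594.ZP.fam hd A hA e he N hN
  refine ⟨κ, hκ, fun K hK α hα hαalg c hc Γ hΓ hΓalg => ?_⟩
  refine (hmain K hK α hα hαalg c hc Γ hΓ hΓalg).subset ?_
  rintro t ⟨htd, hNM, hno⟩
  refine ⟨htd, hNM, fun hall => hno (noAtypical_of Γ A c t _ ?_)⟩
  rintro w η ⟨s, q, hs, hq, hsum⟩ Λ B hB1 hB2 hB
  choose! u hu hwu using fun j β (hβ : β ∈ A j) => (hs j β hβ).2.2
  choose v hv hηv using fun i => (hq i).2.2
  refine hall u s v q (fun j β hβ => ⟨hu j β hβ, (hs j β hβ).1, (hs j β hβ).2.1⟩)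
    (fun i => ⟨hv i, (hq i).1, (hq i).2.1⟩) hsum Λ B ?_ ?_ hB
  · intro x hx
    obtain ⟨h1, h2⟩ := hB1 hx
    refine ⟨h1, fun j => ?_⟩
    rw [← h2 j]
    refine Finset.sum_congr rfl fun β hβ => ?_
    rw [hwu j β hβ]
  · have h3 : (fun i => v i * q i) = η := funext fun i => (hηv i).symm
    rw [h3]
    exact hB2

end Pool.Agent.Results.MP_b7926e_nt.SmallTwistsOfFamilies
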