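import Pool.Agent.H883.ZS.Sub2

set_option autoImplicit false

/-!
# Bounded height for products of three lines, and of any number of lines

Let `V` be the product of `c` lines `a_i x_i + b_i y_i = 1` in the torus `G_m^{2c}`, with nonzero
coefficients in a number field `K0`; for `c = 3` it is the product of three lines in `G_m^6`. Every point
of `V` lies on an anomalous subvariety (if `c ≥ 2`), so that the bounded height theorem, on the points of
`V` off the anomalous locus in the subgroups of codimension `dim V`, is empty for `V`; and for `c = 3` the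
heights of the points of `V` in the subgroups of codimension `3 = dim V` are unbounded on Zariski dense
sets of points.

We show that among any three coordinates at least one has bounded height: there are a positive `ε`, a bound
`B`, and nonzero polynomials `G_e`, one for each choice `e` of three of the coordinates, such that for every
point `P` of `V` which is in the cone of aperture `ε` about an algebraic subgroup of dimension at most `3`
(any such subgroup) and every `e` either `G_e` vanishes at the three chosen coordinates or one of them has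
height at most `B`. The common zeros of the `G_e` are a closed set of dimension at most `2`. For `c = 3`
this is: `G(x_1, x_2, x_3) = 0` or `h(x_i) ≤ B` for some `i`.
-/

namespace Pool.Agent.Results.MP_b7926e_nt.ThreeLines

open NumberField

/-- the monomial `w^e`, the product of the `w_l ^ e_l` -/
def mon {F κ : Type} [Field F] [Fintype κ] (w : κ → F) (e : κ → ℤ) : F := ∏ l, w l ^ e l

/-- The point `w` of the torus satisfies `m` independent multiplicative relations `w^r = 1`; in
other words it lies in an algebraic subgroup of codimension `m` (equivalently at least `m`). -/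
def Codim {F κ : Type} [Field F] [Fintype κ] (w : κ → F) (m : ℕ) : Prop :=
  ∃ R : Fin m → κ → ℤ, LinearIndependent ℤ R ∧ ∀ k, mon w (R k) = 1

/-- the absolute logarithmic Weil height of an element of a number field -/
noncomputable def ht {K : Type} [Field K] [NumberField K] (x : K) : ℝ :=
  Height.logHeight₁ x / Module.finrank ℚ K

/-- `P = (x, y)` is a point over `K` of the product `V` of the lines `a_i x_i + b_i y_i = 1` in
the torus of dimension `2 c`; `x_i = P (Sum.inl i)`, `y_i = P (Sum.inr i)`. -/
def OnV {K0 : Type} [Field K0] {c : ℕ} (a b : Fin c → K0) {K : Type} [Field K] [Algebra K0 K]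
    (P : Fin c ⊕ Fin c → K) : Prop :=
  (∀ r, P r ≠ 0) ∧
    ∀ i, algebraMap K0 K (a i) * P (Sum.inl i) + algebraMap K0 K (b i) * P (Sum.inr i) = 1

/-- `P = g u` with `g` in an algebraic subgroup of dimension at most `r`, where the
coordinates `u_s` with `s` on the `i`-th line have height at most `ε h(x_i)` -/
def InCone {c : ℕ} {K : Type} [Field K] [NumberField K] (P : Fin c ⊕ Fin c → K) (r : ℕ)
    (ε : ℝ) : Prop :=
  ∃ g u : Fin c ⊕ Fin c → K, (∀ s, P s = g s * u s) ∧ (∃ m, Codim g m ∧ 2 * c ≤ m + r) ∧
    ∀ i, ht (u (Sum.inl i)) ≤ ε * ht (P (Sum.inl i)) ∧ ht (u (Sum.inr i)) ≤ ε * ht (P (Sum.inl i))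

/-- The common zero set of the polynomials `G_e(x_{e(1)}, …, x_{e(k)})`, `e` running through the
injections of `{1, …, k}` into `{1, …, c}`, in the affine space of dimension `c` has dimension less
than `k`, over every extension field `L` of `K0`: the transcendence degree of the coordinate ring of
every irreducible subvariety of the zero set is less than `k`. -/
def SmallDim {K0 : Type} [Field K0] {c k : ℕ} (G : (Fin k ↪ Fin c) → MvPolynomial (Fin k) K0) :
    Prop :=
  ∀ (L : Type) [Field L] [Algebra K0 L] (I : Ideal (MvPolynomial (Fin c) L)), I.IsPrime →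
    (∀ e : Fin k ↪ Fin c,
      MvPolynomial.rename e (MvPolynomial.map (algebraMap K0 L) (G e)) ∈ I) →
    Algebra.trdeg L (MvPolynomial (Fin c) L ⧸ I) < k

theorem result (K0 : Type) [Field K0] [NumberField K0] (c : ℕ) (a b : Fin c → K0)
    (ha : ∀ i, a i ≠ 0) (hb : ∀ i, b i ≠ 0) :
    ∃ G : (Fin 3 ↪ Fin c) → MvPolynomial (Fin 3) K0, (∀ e, G e ≠ 0) ∧ SmallDim G ∧
      ∃ ε B : ℝ, 0 < ε ∧
      ∀ (K : Type) [Field K] [NumberField K] [Algebra K0 K] (P : Fin c ⊕ Fin c → K),
        OnV a b P → InCone P 3 ε →
        ∀ e : Fin 3 ↪ Fin c,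
          MvPolynomial.aeval (fun j => P (Sum.inl (e j))) (G e) = 0 ∨
            ∃ j, ht (P (Sum.inl (e j))) ≤ B := by
  obtain ⟨G, hG, ε, B, hε, h⟩ := Pool.Agent.H883.ZS.three_all K0 c a b ha hb
  refine ⟨G, hG, ?_, ε, B, hε, ?_⟩
  · intro L _ _ I hI hmem
    have : IsDomain (MvPolynomial (Fin c) L ⧸ I) := Ideal.Quotient.isDomain I
    obtain ⟨d, hd⟩ := Cardinal.lt_aleph0.1
      (_root_.trdeg_lt_aleph0_of_finiteType (R := L) (S := MvPolynomial (Fin c) L ⧸ I))
    rw [hd]
    exact_mod_cast Pool.Agent.H883.ZS.dim_lt I hI G hG hmem d hd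
  · intro K _ _ _ P hP hnear e
    obtain ⟨g, u, hge, hcod, hu⟩ := hnear
    exact h K P g u hP.1 hP.2 hge hcod hu e

end Pool.Agent.Results.MP_b7926e_nt.ThreeLines
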